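import Pool.Agent.helper75.IQ.Spec

set_option autoImplicit false

namespace Pool.Agent.helper75.IQ

open MeasureTheory Set Filter Topology

/-! ### The cut-off function -/

noncomputable def UPB_h (n s : ℝ) : ℝ := Real.smoothTransition (n * s - 1)

lemma UPB_h_contDiff (n : ℝ) : ContDiff ℝ 1 (UPB_h n) := by
  unfold UPB_h
  have h1 : ContDiff ℝ 1 (fun s : ℝ => n * s - 1) := by fun_prop
  exact (Real.smoothTransition.contDiff (n := 1)).comp h1

lemma UPB_h_nonneg (n s : ℝ) : 0 ≤ UPB_h n s := Real.smoothTransition.nonneg _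

lemma UPB_h_le_one (n s : ℝ) : UPB_h n s ≤ 1 := Real.smoothTransition.le_one _

lemma UPB_h_zero (n s : ℝ) (hn : 0 < n) (hs : s ≤ 1 / n) : UPB_h n s = 0 := by
  apply Real.smoothTransition.zero_of_nonpos
  have := mul_le_mul_of_nonneg_left hs hn.le
  have h2 : n * (1 / n) = 1 := by field_simp
  linarith

lemma UPB_h_one (n s : ℝ) (hn : 0 < n) (hs : 2 / n ≤ s) : UPB_h n s = 1 := by
  apply Real.smoothTransition.one_of_one_le
  have := mul_le_mul_of_nonneg_left hs hn.le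
  have h2 : n * (2 / n) = 2 := by field_simp
  linarith

lemma UPB_h_mono (n : ℝ) (hn : 0 < n) : Monotone (UPB_h n) := by
  intro a b hab
  apply Real.smoothTransition.monotone
  have := mul_le_mul_of_nonneg_left hab hn.le
  linarith

lemma UPB_h_deriv_nonneg (n : ℝ) (hn : 0 < n) (s : ℝ) : 0 ≤ deriv (UPB_h n) s :=
  (UPB_h_mono n hn).deriv_nonneg

lemma UPB_h_deriv_cont (n : ℝ) : Continuous (deriv (UPB_h n)) :=
  (UPB_h_contDiff n).continuous_deriv le_rfl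

lemma UPB_h_hasDeriv (n s : ℝ) : HasDerivAt (UPB_h n) (deriv (UPB_h n) s) s :=
  ((UPB_h_contDiff n).differentiable (by norm_num)).differentiableAt.hasDerivAt

lemma UPB_h_deriv_zero (n : ℝ) (hn : 0 < n) (s : ℝ) (hs : s ∉ Icc (1 / n) (2 / n)) :
    deriv (UPB_h n) s = 0 := by
  by_cases h1 : s < 1 / n
  · have : UPB_h n =ᶠ[𝓝 s] fun _ => (0 : ℝ) := by
      filter_upwards [Iio_mem_nhds h1] with y hy
      exact UPB_h_zero n y hn (le_of_lt hy)
    rw [this.deriv_eq]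
    simp
  · have h2 : 2 / n < s := by
      by_contra h3
      exact hs ⟨not_lt.1 h1, not_lt.1 h3⟩
    have : UPB_h n =ᶠ[𝓝 s] fun _ => (1 : ℝ) := by
      filter_upwards [Ioi_mem_nhds h2] with y hy
      exact UPB_h_one n y hn (le_of_lt hy)
    rw [this.deriv_eq]
    simp

lemma UPB_h_lint (n : ℝ) (hn : 0 < n) : ∫⁻ s, ENNReal.ofReal (deriv (UPB_h n) s) ≤ 1 := by
  have hle : 1 / n ≤ 2 / n := by
    apply div_le_div_of_nonneg_right _ hn.le
    norm_num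
  have h1 : ∫⁻ s, ENNReal.ofReal (deriv (UPB_h n) s) =
      ∫⁻ s in Icc (1 / n) (2 / n), ENNReal.ofReal (deriv (UPB_h n) s) := by
    rw [← lintegral_indicator measurableSet_Icc]
    apply lintegral_congr
    intro s
    by_cases hs : s ∈ Icc (1 / n) (2 / n)
    · rw [indicator_of_mem hs]
    · rw [indicator_of_notMem hs, UPB_h_deriv_zero n hn s hs]
      simp
  have hint : IntegrableOn (deriv (UPB_h n)) (Icc (1 / n) (2 / n)) volume :=
    (UPB_h_deriv_cont n).continuousOn.integrableOn_compact isCompact_Icc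
  rw [h1, ← ofReal_integral_eq_lintegral_ofReal hint
    (Eventually.of_forall (fun s => UPB_h_deriv_nonneg n hn s))]
  have h2 : ∫ s in Icc (1 / n) (2 / n), deriv (UPB_h n) s = UPB_h n (2 / n) - UPB_h n (1 / n) := by
    rw [integral_Icc_eq_integral_Ioc, ← intervalIntegral.integral_of_le hle]
    apply intervalIntegral.integral_eq_sub_of_hasDerivAt
    · intro x _
      exact UPB_h_hasDeriv n x
    · exact (UPB_h_deriv_cont n).intervalIntegrable _ _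
  rw [h2, UPB_h_one n _ hn le_rfl, UPB_h_zero n _ hn le_rfl]
  simp

lemma UPB_h_lint_sub (n : ℝ) (hn : 0 < n) (c : ℝ) :
    ∫⁻ t, ENNReal.ofReal (deriv (UPB_h n) (c - t)) ≤ 1 := by
  have := lintegral_sub_left_eq_self (μ := (volume : Measure ℝ))
    (fun s => ENNReal.ofReal (deriv (UPB_h n) s)) c
  rw [this]
  exact UPB_h_lint n hn

lemma UPB_h_lint_add (n : ℝ) (hn : 0 < n) (c : ℝ) :
    ∫⁻ t, ENNReal.ofReal (deriv (UPB_h n) (c + t)) ≤ 1 := by
  have := lintegral_add_left_eq_self (μ := (volume : Measure ℝ))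
    (fun s => ENNReal.ofReal (deriv (UPB_h n) s)) c
  rw [this]
  exact UPB_h_lint n hn

/-! ### Tonelli -/

lemma UPB_tonelli (F : Sp → ENNReal) (hF : Measurable F) :
    ∫⁻ p, F p = ∫⁻ q : ℝ × ℝ, ∫⁻ t : ℝ, F (q.1, q.2, t) := by
  have h1 := (volume_preserving_prodAssoc (α₁ := ℝ) (β₁ := ℝ) (γ₁ := ℝ)).lintegral_comp hF
  rw [← h1, Measure.volume_eq_prod (ℝ × ℝ) ℝ, lintegral_prod]
  · rfl
  · exact (hF.comp (MeasurableEquiv.measurable _)).aemeasurable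

/-! ### The function `u`, extended -/

noncomputable def UPB_U (κ τ R w : ℝ) : ℝ := hgt κ τ R (min w (R ^ 2))

lemma UPB_U_cont {κ τ R : ℝ} (hc : ContinuousOn (hgt κ τ R) (Iic (R ^ 2))) :
    Continuous (UPB_U κ τ R) := by
  unfold UPB_U
  exact hc.comp_continuous (by fun_prop) (fun w => mem_Iic.2 (min_le_right _ _))

lemma UPB_U_of_lt {κ τ R w : ℝ} (hw : w ≤ R ^ 2) : UPB_U κ τ R w = hgt κ τ R w := by
  unfold UPB_U
  rw [min_eq_left hw]

lemma UPB_U_of_ge {κ τ R w : ℝ} (h0 : hgt κ τ R (R ^ 2) = 0) (hw : R ^ 2 ≤ w) : UPB_U κ τ R w = 0 := by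
  unfold UPB_U
  rw [min_eq_right hw, h0]

lemma UPB_U_deriv {κ τ R w : ℝ} (hd : ∀ w, w < R ^ 2 → HasDerivAt (hgt κ τ R) (dh κ τ R w) w)
    (hw : w < R ^ 2) : HasDerivAt (UPB_U κ τ R) (dh κ τ R w) w := by
  apply (hd w hw).congr_of_eventuallyEq
  filter_upwards [Iio_mem_nhds hw] with y hy
  exact UPB_U_of_lt (le_of_lt hy)

lemma UPB_U_contDiffAt {κ τ R w : ℝ} (hd : ∀ w, w < R ^ 2 → HasDerivAt (hgt κ τ R) (dh κ τ R w) w)
    (hdc : ContinuousOn (dh κ τ R) (Iio (R ^ 2)))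
    (hw : w < R ^ 2) : ContDiffAt ℝ 1 (UPB_U κ τ R) w := by
  have h1 : ContDiffOn ℝ 1 (UPB_U κ τ R) (Iio (R ^ 2)) := by
    have h2 : (1 : WithTop ℕ∞) = 0 + 1 := by norm_num
    rw [h2, contDiffOn_succ_iff_deriv_of_isOpen isOpen_Iio]
    refine ⟨?_, by simp, ?_⟩
    · intro x hx
      exact (UPB_U_deriv hd hx).differentiableAt.differentiableWithinAt
    · rw [contDiffOn_zero]
      apply hdc.congr
      intro x hx
      exact (UPB_U_deriv hd hx).deriv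
  exact h1.contDiffAt (Iio_mem_nhds hw)

noncomputable def UPB_phi (κ τ R n : ℝ) (p : Sp) : ℝ :=
  UPB_h n (UPB_U κ τ R (nq (pr p)) - p.2.2) * UPB_h n (UPB_U κ τ R (nq (pr p)) + p.2.2)

lemma UPB_phi_zero {κ τ R n : ℝ} (hn : 0 < n) (p : Sp)
    (h : UPB_U κ τ R (nq (pr p)) - |p.2.2| ≤ 1 / n) : UPB_phi κ τ R n p = 0 := by
  unfold UPB_phi
  rcases le_or_gt 0 p.2.2 with h1 | h1
  · rw [abs_of_nonneg h1] at h
    rw [UPB_h_zero n _ hn h, zero_mul]
  · rw [abs_of_neg h1] at h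
    rw [UPB_h_zero n (UPB_U κ τ R (nq (pr p)) + p.2.2) hn (by linarith), mul_zero]

lemma UPB_nq_contDiff : ContDiff ℝ 1 (fun p : Sp => nq (pr p)) := by
  unfold nq pr
  fun_prop

lemma UPB_nq_cont : Continuous (fun p : Sp => nq (pr p)) := UPB_nq_contDiff.continuous

lemma UPB_phi_contDiff {κ τ R n : ℝ} (hn : 0 < n) (hc : ContinuousOn (hgt κ τ R) (Iic (R ^ 2)))
    (h0 : hgt κ τ R (R ^ 2) = 0)
    (hd : ∀ w, w < R ^ 2 → HasDerivAt (hgt κ τ R) (dh κ τ R w) w)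
    (hdc : ContinuousOn (dh κ τ R) (Iio (R ^ 2))) : ContDiff ℝ 1 (UPB_phi κ τ R n) := by
  rw [contDiff_iff_contDiffAt]
  intro p
  by_cases hp : nq (pr p) < R ^ 2
  · have h1 : ContDiffAt ℝ 1 (fun p : Sp => UPB_U κ τ R (nq (pr p))) p := by
      have h3 : ContDiffAt ℝ 1 (fun p : Sp => nq (pr p)) p := UPB_nq_contDiff.contDiffAt
      have h4 : ContDiffAt ℝ 1 (UPB_U κ τ R) (nq (pr p)) := UPB_U_contDiffAt hd hdc hp
      exact ContDiffAt.comp (g := UPB_U κ τ R) (f := fun p : Sp => nq (pr p)) p h4 h3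
    have h2 : ContDiffAt ℝ 1 (fun p : Sp => p.2.2) p := by fun_prop
    unfold UPB_phi
    exact ((UPB_h_contDiff n).contDiffAt.comp p (h1.sub h2)).mul
      ((UPB_h_contDiff n).contDiffAt.comp p (h1.add h2))
  · have h1 : UPB_phi κ τ R n =ᶠ[𝓝 p] fun _ => (0 : ℝ) := by
      have h2 : Tendsto (fun p : Sp => UPB_U κ τ R (nq (pr p))) (𝓝 p) (𝓝 0) := by
        have h3 : Continuous (fun p : Sp => UPB_U κ τ R (nq (pr p))) :=
          (UPB_U_cont hc).comp UPB_nq_cont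
        have h4 := h3.tendsto p
        rwa [UPB_U_of_ge h0 (not_lt.1 hp)] at h4
      have h5 : (0 : ℝ) < 1 / n := by positivity
      filter_upwards [h2.eventually (Iio_mem_nhds h5)] with q hq
      apply UPB_phi_zero hn
      have : UPB_U κ τ R (nq (pr q)) < 1 / n := hq
      have := abs_nonneg q.2.2
      linarith
    exact contDiffAt_const.congr_of_eventuallyEq h1

/-! ### The derivatives of `φ` -/

lemma UPB_fderiv_nq (p : Sp) : HasFDerivAt (fun q : Sp => nq (pr q))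
    ((2 * p.1) • ContinuousLinearMap.fst ℝ ℝ (ℝ × ℝ) +
      (2 * p.2.1) • (ContinuousLinearMap.fst ℝ ℝ ℝ).comp (ContinuousLinearMap.snd ℝ ℝ (ℝ × ℝ))) p := by
  have h1 : HasFDerivAt (fun q : Sp => q.1) (ContinuousLinearMap.fst ℝ ℝ (ℝ × ℝ)) p := hasFDerivAt_fst
  have h2 : HasFDerivAt (fun q : Sp => q.2.1)
      ((ContinuousLinearMap.fst ℝ ℝ ℝ).comp (ContinuousLinearMap.snd ℝ ℝ (ℝ × ℝ))) p :=
    ((ContinuousLinearMap.fst ℝ ℝ ℝ).comp (ContinuousLinearMap.snd ℝ ℝ (ℝ × ℝ))).hasFDerivAt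
  have h3 := (h1.pow 2).add (h2.pow 2)
  have h4 : (fun q : Sp => nq (pr q)) = fun q : Sp => q.1 ^ 2 + q.2.1 ^ 2 := rfl
  rw [h4]
  refine h3.congr_fderiv ?_
  ext <;> simp

lemma UPB_fderiv_phi {κ τ R n : ℝ} (hd : ∀ w, w < R ^ 2 → HasDerivAt (hgt κ τ R) (dh κ τ R w) w)
    (p : Sp) (hp : nq (pr p) < R ^ 2) (A B : ℝ)
    (hA : A = deriv (UPB_h n) (UPB_U κ τ R (nq (pr p)) - p.2.2) *
      UPB_h n (UPB_U κ τ R (nq (pr p)) + p.2.2))
    (hB : B = UPB_h n (UPB_U κ τ R (nq (pr p)) - p.2.2) *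
      deriv (UPB_h n) (UPB_U κ τ R (nq (pr p)) + p.2.2)) :
    fderiv ℝ (UPB_phi κ τ R n) p (1, 0, 0) = (A + B) * (2 * p.1 * dh κ τ R (nq (pr p))) ∧
    fderiv ℝ (UPB_phi κ τ R n) p (0, 1, 0) = (A + B) * (2 * p.2.1 * dh κ τ R (nq (pr p))) ∧
    fderiv ℝ (UPB_phi κ τ R n) p (0, 0, 1) = B - A := by
  have hU : HasFDerivAt (fun q : Sp => UPB_U κ τ R (nq (pr q)))
      (dh κ τ R (nq (pr p)) • ((2 * p.1) • ContinuousLinearMap.fst ℝ ℝ (ℝ × ℝ) +
      (2 * p.2.1) • (ContinuousLinearMap.fst ℝ ℝ ℝ).comp (ContinuousLinearMap.snd ℝ ℝ (ℝ × ℝ)))) p :=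
    HasDerivAt.comp_hasFDerivAt (h₂ := UPB_U κ τ R) p (UPB_U_deriv hd hp) (UPB_fderiv_nq p)
  have hT : HasFDerivAt (fun q : Sp => q.2.2)
      ((ContinuousLinearMap.snd ℝ ℝ ℝ).comp (ContinuousLinearMap.snd ℝ ℝ (ℝ × ℝ))) p :=
    ((ContinuousLinearMap.snd ℝ ℝ ℝ).comp (ContinuousLinearMap.snd ℝ ℝ (ℝ × ℝ))).hasFDerivAt
  have h1 := HasDerivAt.comp_hasFDerivAt (h₂ := UPB_h n) p (UPB_h_hasDeriv n _) (hU.sub hT)
  have h2 := HasDerivAt.comp_hasFDerivAt (h₂ := UPB_h n) p (UPB_h_hasDeriv n _) (hU.add hT)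
  have h3 := h1.mul h2
  have h4 : fderiv ℝ (UPB_phi κ τ R n) p = _ := h3.fderiv
  rw [h4, hA, hB]
  refine ⟨?_, ?_, ?_⟩ <;> simp <;> ring

lemma UPB_fderiv_phi_zero {κ τ R n : ℝ} (hn : 0 < n) (hc : ContinuousOn (hgt κ τ R) (Iic (R ^ 2)))
    (h0 : hgt κ τ R (R ^ 2) = 0) (p : Sp) (hp : ¬ nq (pr p) < R ^ 2) :
    fderiv ℝ (UPB_phi κ τ R n) p = 0 := by
  have h1 : UPB_phi κ τ R n =ᶠ[𝓝 p] fun _ => (0 : ℝ) := by
    have h2 : Tendsto (fun p : Sp => UPB_U κ τ R (nq (pr p))) (𝓝 p) (𝓝 0) := by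
      have h3 : Continuous (fun p : Sp => UPB_U κ τ R (nq (pr p))) :=
        (UPB_U_cont hc).comp UPB_nq_cont
      have h4 := h3.tendsto p
      rwa [UPB_U_of_ge h0 (not_lt.1 hp)] at h4
    have h5 : (0 : ℝ) < 1 / n := by positivity
    filter_upwards [h2.eventually (Iio_mem_nhds h5)] with q hq
    apply UPB_phi_zero hn
    have : UPB_U κ τ R (nq (pr q)) < 1 / n := hq
    have := abs_nonneg q.2.2
    linarith
  rw [h1.fderiv_eq]
  simp

/-! ### The pointwise estimate -/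

lemma UPB_cs (a b c v1 v2 v3 M : ℝ) (h : a ^ 2 + b ^ 2 + c ^ 2 ≤ 1) (hM : 0 ≤ M)
    (hv : v1 ^ 2 + v2 ^ 2 + v3 ^ 2 = M ^ 2) : a * v1 + b * v2 + c * v3 ≤ M := by
  have h1 : (a * v1 + b * v2 + c * v3) ^ 2 ≤ M ^ 2 := by
    have h2 : (a * v1 + b * v2 + c * v3) ^ 2 ≤ (a ^ 2 + b ^ 2 + c ^ 2) * (v1 ^ 2 + v2 ^ 2 + v3 ^ 2) := by
      nlinarith [sq_nonneg (a * v2 - b * v1), sq_nonneg (a * v3 - c * v1), sq_nonneg (b * v3 - c * v2)]
    have h3 : (a ^ 2 + b ^ 2 + c ^ 2) * (v1 ^ 2 + v2 ^ 2 + v3 ^ 2) ≤ 1 * (v1 ^ 2 + v2 ^ 2 + v3 ^ 2) :=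
      mul_le_mul_of_nonneg_right h (by positivity)
    rw [hv] at h2 h3
    linarith
  exact le_of_abs_le (abs_le_of_sq_le_sq h1 hM)

/-- the density of the area -/
noncomputable def UPB_P (κ τ R w : ℝ) : ℝ := GG κ τ w / √(1 - w / R ^ 2)

lemma UPB_lam_pos {κ R w : ℝ} (hκ : κ ≤ 0) (hR : -4 < κ * R ^ 2) (hw : w < R ^ 2) :
    0 < lam κ w := by
  unfold lam
  apply inv_pos.2
  have h1 : κ * R ^ 2 ≤ κ * w := mul_le_mul_of_nonpos_left hw.le hκ
  linarith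

lemma UPB_alg {κ τ R w a b c x y s : ℝ} (hκ : κ ≤ 0) (hR0 : 0 < R) (hR : -4 < κ * R ^ 2)
    (hw : w < R ^ 2) (hxy : x ^ 2 + y ^ 2 = w) (h : a ^ 2 + b ^ 2 + c ^ 2 ≤ 1) (hs : s ^ 2 = 1) :
    -(lam κ w * (a * (2 * x * dh κ τ R w) + b * (2 * y * dh κ τ R w))) +
      s * (lam κ w ^ 2 * (-(τ * y) * a + τ * x * b + c)) ≤ UPB_P κ τ R w := by
  have hw0 : 0 ≤ w := by rw [← hxy]; positivity
  have hl := UPB_lam_pos hκ hR hw
  set l := lam κ w with hl_def
  have hRw : 0 < R ^ 2 - w := by linarith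
  have h1 : 0 < 1 - w / R ^ 2 := by
    rw [sub_pos, div_lt_one (by positivity)]
    exact hw
  have hZ : 0 ≤ (1 + τ ^ 2 * w) / (R ^ 2 - w) := by positivity
  set D := √((1 + τ ^ 2 * w) / (R ^ 2 - w)) with hD
  have hD2 : D ^ 2 = (1 + τ ^ 2 * w) / (R ^ 2 - w) := Real.sq_sqrt hZ
  have hdh : dh κ τ R w = -(l * D) / 2 := rfl
  have hM0 : 0 ≤ (1 + τ ^ 2 * w) / (1 - w / R ^ 2) := by positivity
  have hM2 : √((1 + τ ^ 2 * w) / (1 - w / R ^ 2)) ^ 2 = (1 + τ ^ 2 * w) / (1 - w / R ^ 2) :=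
    Real.sq_sqrt hM0
  have hkey : (1 + τ ^ 2 * w) / (1 - w / R ^ 2) = w * D ^ 2 + τ ^ 2 * w + 1 := by
    rw [hD2]
    have hR2 : R ^ 2 ≠ 0 := by positivity
    field_simp
    ring
  have hcs := UPB_cs a b c (x * D - s * τ * y) (y * D + s * τ * x) s
    (√((1 + τ ^ 2 * w) / (1 - w / R ^ 2))) h (Real.sqrt_nonneg _) (by
      rw [hM2, hkey]
      have : s ^ 2 * τ ^ 2 * (x ^ 2 + y ^ 2) = τ ^ 2 * w := by rw [hs, hxy]; ring
      have h3 : (x ^ 2 + y ^ 2) * D ^ 2 = w * D ^ 2 := by rw [hxy]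
      linear_combination this + h3 + hs)
  have hP : UPB_P κ τ R w = l ^ 2 * √((1 + τ ^ 2 * w) / (1 - w / R ^ 2)) := by
    unfold UPB_P GG
    rw [Real.sqrt_div (by positivity)]
    ring
  rw [hP, hdh]
  have h4 := mul_le_mul_of_nonneg_left hcs (sq_nonneg l)
  calc _ = l ^ 2 * (a * (x * D - s * τ * y) + b * (y * D + s * τ * x) + c * s) := by ring
    _ ≤ _ := h4

lemma UPB_P_nonneg {κ τ R w : ℝ} : 0 ≤ UPB_P κ τ R w := by
  unfold UPB_P GG
  positivity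

/-- the bound for the integrand -/
noncomputable def UPB_G (κ τ R n : ℝ) (p : Sp) : ENNReal :=
  (Iio (R ^ 2)).indicator (fun w => ENNReal.ofReal (UPB_P κ τ R w)) (nq (pr p)) *
    (ENNReal.ofReal (deriv (UPB_h n) (UPB_U κ τ R (nq (pr p)) - p.2.2)) +
      ENNReal.ofReal (deriv (UPB_h n) (UPB_U κ τ R (nq (pr p)) + p.2.2)))

lemma UPB_point {κ τ R n : ℝ} (hκ : κ ≤ 0) (hR0 : 0 < R) (hR : -4 < κ * R ^ 2) (hn : 0 < n)
    (hc : ContinuousOn (hgt κ τ R) (Iic (R ^ 2))) (h0 : hgt κ τ R (R ^ 2) = 0)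
    (hd : ∀ w, w < R ^ 2 → HasDerivAt (hgt κ τ R) (dh κ τ R w) w) (Y : VF) (hY : Adm κ Y) (p : Sp) :
    ENNReal.ofReal (-(lam κ (nq (pr p)) * (Y.a p * fderiv ℝ (UPB_phi κ τ R n) p (1, 0, 0) +
      Y.b p * fderiv ℝ (UPB_phi κ τ R n) p (0, 1, 0)) +
      lam κ (nq (pr p)) ^ 2 * ((-(τ * p.2.1) * Y.a p + τ * p.1 * Y.b p + Y.c p) *
        fderiv ℝ (UPB_phi κ τ R n) p (0, 0, 1)))) ≤ UPB_G κ τ R n p := by
  by_cases hp : nq (pr p) < R ^ 2
  · set u := UPB_U κ τ R (nq (pr p)) with hu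
    have h1 := UPB_h_deriv_nonneg n hn (u - p.2.2)
    have h2 := UPB_h_deriv_nonneg n hn (u + p.2.2)
    have h3 := UPB_h_nonneg n (u - p.2.2)
    have h4 := UPB_h_nonneg n (u + p.2.2)
    have h5 := UPB_h_le_one n (u - p.2.2)
    have h6 := UPB_h_le_one n (u + p.2.2)
    set A := deriv (UPB_h n) (u - p.2.2) * UPB_h n (u + p.2.2) with hA
    set B := UPB_h n (u - p.2.2) * deriv (UPB_h n) (u + p.2.2) with hB
    obtain ⟨e1, e2, e3⟩ := UPB_fderiv_phi hd p hp A B hA hB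
    have hA0 : 0 ≤ A := mul_nonneg h1 h4
    have hB0 : 0 ≤ B := mul_nonneg h3 h2
    have hA1 : A ≤ deriv (UPB_h n) (u - p.2.2) := mul_le_of_le_one_right h1 h6
    have hB1 : B ≤ deriv (UPB_h n) (u + p.2.2) := mul_le_of_le_one_left h2 h5
    have g1 := UPB_alg (κ := κ) (τ := τ) (R := R) (w := nq (pr p)) (a := Y.a p) (b := Y.b p)
      (c := Y.c p) (x := p.1) (y := p.2.1) (s := 1) hκ hR0 hR hp rfl (hY.le p) (by norm_num)
    have g2 := UPB_alg (κ := κ) (τ := τ) (R := R) (w := nq (pr p)) (a := Y.a p) (b := Y.b p)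
      (c := Y.c p) (x := p.1) (y := p.2.1) (s := -1) hκ hR0 hR hp rfl (hY.le p) (by norm_num)
    have g3 := mul_le_mul_of_nonneg_left g1 hA0
    have g4 := mul_le_mul_of_nonneg_left g2 hB0
    have hP := UPB_P_nonneg (κ := κ) (τ := τ) (R := R) (w := nq (pr p))
    have g5 : A * UPB_P κ τ R (nq (pr p)) ≤
        deriv (UPB_h n) (u - p.2.2) * UPB_P κ τ R (nq (pr p)) := mul_le_mul_of_nonneg_right hA1 hP
    have g6 : B * UPB_P κ τ R (nq (pr p)) ≤
        deriv (UPB_h n) (u + p.2.2) * UPB_P κ τ R (nq (pr p)) := mul_le_mul_of_nonneg_right hB1 hP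
    have hG : UPB_G κ τ R n p = ENNReal.ofReal (UPB_P κ τ R (nq (pr p)) *
        (deriv (UPB_h n) (u - p.2.2) + deriv (UPB_h n) (u + p.2.2))) := by
      unfold UPB_G
      rw [indicator_of_mem (mem_Iio.2 hp), ENNReal.ofReal_mul hP, ENNReal.ofReal_add h1 h2]
    rw [hG, e1, e2, e3]
    apply ENNReal.ofReal_le_ofReal
    linarith
  · rw [UPB_fderiv_phi_zero hn hc h0 p hp]
    simp

lemma UPB_P_meas (κ τ R : ℝ) : Measurable (UPB_P κ τ R) := by
  unfold UPB_P GG lam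
  fun_prop

lemma UPB_G_meas {κ τ R n : ℝ} (hc : ContinuousOn (hgt κ τ R) (Iic (R ^ 2))) :
    Measurable (UPB_G κ τ R n) := by
  unfold UPB_G
  have h1 : Measurable ((Iio (R ^ 2)).indicator (fun w => ENNReal.ofReal (UPB_P κ τ R w))) :=
    ((UPB_P_meas κ τ R).ennreal_ofReal).indicator measurableSet_Iio
  have h2 : Continuous (fun p : Sp => UPB_U κ τ R (nq (pr p))) := (UPB_U_cont hc).comp UPB_nq_cont
  have h3 : Continuous (fun p : Sp => deriv (UPB_h n) (UPB_U κ τ R (nq (pr p)) - p.2.2)) :=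
    (UPB_h_deriv_cont n).comp (h2.sub (by fun_prop))
  have h4 : Continuous (fun p : Sp => deriv (UPB_h n) (UPB_U κ τ R (nq (pr p)) + p.2.2)) :=
    (UPB_h_deriv_cont n).comp (h2.add (by fun_prop))
  exact (h1.comp UPB_nq_cont.measurable).mul
    ((h3.measurable.ennreal_ofReal).add (h4.measurable.ennreal_ofReal))

lemma UPB_nq_meas : Measurable nq := by
  unfold nq
  fun_prop

lemma UPB_P_int {κ τ R : ℝ} (hκ : κ ≤ 0) (hR0 : 0 < R) (hR : -4 < κ * R ^ 2)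
    (hI : IntervalIntegrable (fun v => lam κ v * √((1 + τ ^ 2 * v) / (R ^ 2 - v))) volume 0 (R ^ 2)) :
    IntervalIntegrable (UPB_P κ τ R) volume 0 (R ^ 2) := by
  have hR2 : (0 : ℝ) ≤ R ^ 2 := by positivity
  have h1 : ContinuousOn (fun w => R * lam κ w) (uIcc 0 (R ^ 2)) := by
    unfold lam
    apply continuousOn_const.mul
    apply ContinuousOn.inv₀ (by fun_prop)
    intro w hw
    rw [uIcc_of_le hR2] at hw
    have h1 : κ * R ^ 2 ≤ κ * w := mul_le_mul_of_nonpos_left hw.2 hκ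
    apply ne_of_gt
    linarith
  have h2 := hI.continuousOn_mul h1
  apply h2.congr
  rw [uIoc_of_le hR2]
  intro w hw
  have hw0 : 0 < w := hw.1
  have hw1 : w ≤ R ^ 2 := hw.2
  show R * lam κ w * (lam κ w * √((1 + τ ^ 2 * w) / (R ^ 2 - w))) = UPB_P κ τ R w
  unfold UPB_P GG
  have h3 : 1 - w / R ^ 2 = (R ^ 2 - w) / R ^ 2 := by field_simp
  rw [h3, Real.sqrt_div (by positivity), Real.sqrt_div (by linarith), Real.sqrt_sq hR0.le]
  rcases eq_or_lt_of_le hw1 with h4 | h4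
  · rw [h4]
    simp
  · have h5 : 0 < √(R ^ 2 - w) := Real.sqrt_pos.2 (by linarith)
    field_simp

lemma UPB_total {κ τ R n : ℝ} (hPOL : POL_stmt) (hκ : κ ≤ 0) (hR0 : 0 < R) (hR : -4 < κ * R ^ 2)
    (hn : 0 < n) (hc : ContinuousOn (hgt κ τ R) (Iic (R ^ 2)))
    (hI : IntervalIntegrable (fun v => lam κ v * √((1 + τ ^ 2 * v) / (R ^ 2 - v))) volume 0 (R ^ 2)) :
    ∫⁻ p, UPB_G κ τ R n p ≤ ENNReal.ofReal (PP κ τ R) := by
  have hR2 : (0 : ℝ) ≤ R ^ 2 := by positivity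
  rw [UPB_tonelli _ (UPB_G_meas hc)]
  have hgm : Measurable ((Iio (R ^ 2)).indicator (fun w => ENNReal.ofReal (UPB_P κ τ R w))) :=
    ((UPB_P_meas κ τ R).ennreal_ofReal).indicator measurableSet_Iio
  have h1 : ∀ q : ℝ × ℝ, ∫⁻ t : ℝ, UPB_G κ τ R n (q.1, q.2, t) ≤
      2 * (Iio (R ^ 2)).indicator (fun w => ENNReal.ofReal (UPB_P κ τ R w)) (nq q) := by
    intro q
    have e1 : ∀ t : ℝ, UPB_G κ τ R n (q.1, q.2, t) =
        (Iio (R ^ 2)).indicator (fun w => ENNReal.ofReal (UPB_P κ τ R w)) (nq q) *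
        (ENNReal.ofReal (deriv (UPB_h n) (UPB_U κ τ R (nq q) - t)) +
        ENNReal.ofReal (deriv (UPB_h n) (UPB_U κ τ R (nq q) + t))) := fun t => rfl
    have m1 : Measurable (fun t : ℝ => ENNReal.ofReal (deriv (UPB_h n) (UPB_U κ τ R (nq q) - t))) :=
      ((UPB_h_deriv_cont n).comp (by fun_prop)).measurable.ennreal_ofReal
    have m2 : Measurable (fun t : ℝ => ENNReal.ofReal (deriv (UPB_h n) (UPB_U κ τ R (nq q) + t))) :=
      ((UPB_h_deriv_cont n).comp (by fun_prop)).measurable.ennreal_ofReal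
    have m3 : Measurable (fun t : ℝ => ENNReal.ofReal (deriv (UPB_h n) (UPB_U κ τ R (nq q) - t)) +
        ENNReal.ofReal (deriv (UPB_h n) (UPB_U κ τ R (nq q) + t))) := m1.add m2
    rw [lintegral_congr e1, lintegral_const_mul _ m3, lintegral_add_left m1]
    rw [mul_comm]
    apply mul_le_mul_left
    have := add_le_add (UPB_h_lint_sub n hn (UPB_U κ τ R (nq q))) (UPB_h_lint_add n hn (UPB_U κ τ R (nq q)))
    rwa [one_add_one_eq_two] at this
  refine (lintegral_mono h1).trans ?_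
  have hgm2 : Measurable (fun q : ℝ × ℝ =>
      (Iio (R ^ 2)).indicator (fun w => ENNReal.ofReal (UPB_P κ τ R w)) (nq q)) :=
    hgm.comp UPB_nq_meas
  rw [lintegral_const_mul _ hgm2]
  have h2 : ∫⁻ q : ℝ × ℝ, (Iio (R ^ 2)).indicator (fun w => ENNReal.ofReal (UPB_P κ τ R w)) (nq q) =
      ∫⁻ w, (Iio (R ^ 2)).indicator (fun w => ENNReal.ofReal (UPB_P κ τ R w)) w
        ∂(Measure.map nq volume) := (lintegral_map hgm UPB_nq_meas).symm
  rw [h2, hPOL, lintegral_smul_measure, lintegral_indicator measurableSet_Iio,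
    Measure.restrict_restrict measurableSet_Iio]
  have h3 : Iio (R ^ 2) ∩ Ioi 0 = Ioo 0 (R ^ 2) := by
    ext w
    simp [and_comm]
  rw [h3]
  have h4 := (UPB_P_int hκ hR0 hR hI)
  rw [intervalIntegrable_iff_integrableOn_Ioo_of_le hR2] at h4
  rw [← ofReal_integral_eq_lintegral_ofReal h4 (Eventually.of_forall (fun _ => UPB_P_nonneg))]
  rw [smul_eq_mul, ← ENNReal.ofReal_mul Real.pi_pos.le]
  have h5 : (2 : ENNReal) = ENNReal.ofReal 2 := by simp
  rw [h5, ← ENNReal.ofReal_mul (by norm_num)]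
  apply ENNReal.ofReal_le_ofReal
  unfold PP
  rw [intervalIntegral.integral_of_le hR2, integral_Ioc_eq_integral_Ioo]
  apply le_of_eq
  rw [mul_assoc]
  rfl

/-! ### Integrability of the divergence -/

lemma UPB_lam_contDiffAt {κ : ℝ} {p : Sp} (hp : p ∈ space κ) :
    ContDiffAt ℝ 1 (fun q : Sp => lam κ (nq (pr q))) p := by
  unfold lam
  have h1 : ContDiffAt ℝ 1 (fun q : Sp => 1 + κ / 4 * nq (pr q)) p :=
    contDiffAt_const.add (contDiffAt_const.mul UPB_nq_contDiff.contDiffAt)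
  exact h1.inv (ne_of_gt hp)

lemma UPB_mul_contDiff {κ : ℝ} (f : Sp → ℝ) (hf : ContDiff ℝ 1 f) (hs : tsupport f ⊆ space κ) :
    ContDiff ℝ 1 (fun q : Sp => lam κ (nq (pr q)) * f q) := by
  rw [contDiff_iff_contDiffAt]
  intro p
  by_cases hp : p ∈ tsupport f
  · exact (UPB_lam_contDiffAt (hs hp)).mul hf.contDiffAt
  · have h1 : (fun q : Sp => lam κ (nq (pr q)) * f q) =ᶠ[𝓝 p] fun _ => (0 : ℝ) := by
      have h2 : f =ᶠ[𝓝 p] 0 := notMem_tsupport_iff_eventuallyEq.1 hp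
      filter_upwards [h2] with q hq
      rw [hq]
      simp
    exact contDiffAt_const.congr_of_eventuallyEq h1

lemma UPB_fderiv_zero (f : Sp → ℝ) (p : Sp) (hp : p ∉ tsupport f) (v : Sp) : fderiv ℝ f p v = 0 := by
  have h2 : f =ᶠ[𝓝 p] fun _ => (0 : ℝ) := notMem_tsupport_iff_eventuallyEq.1 hp
  rw [h2.fderiv_eq]
  simp

lemma UPB_fderiv_zero' (κ : ℝ) (f : Sp → ℝ) (p : Sp) (hp : p ∉ tsupport f) (v : Sp) :
    fderiv ℝ (fun q : Sp => lam κ (nq (pr q)) * f q) p v = 0 := by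
  have h1 : (fun q : Sp => lam κ (nq (pr q)) * f q) =ᶠ[𝓝 p] fun _ => (0 : ℝ) := by
    have h2 : f =ᶠ[𝓝 p] 0 := notMem_tsupport_iff_eventuallyEq.1 hp
    filter_upwards [h2] with q hq
    rw [hq]
    simp
  rw [h1.fderiv_eq]
  simp

lemma UPB_term_cont {κ : ℝ} (f : Sp → ℝ) (hf : ContDiff ℝ 1 f) (hs : tsupport f ⊆ space κ) (v : Sp) :
    Continuous (fun p : Sp => lam κ (nq (pr p)) ^ 2 * fderiv ℝ f p v) := by
  rw [continuous_iff_continuousAt]
  intro p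
  have h0 : Continuous (fun p : Sp => fderiv ℝ f p v) :=
    (hf.continuous_fderiv one_ne_zero).clm_apply continuous_const
  by_cases hp : p ∈ tsupport f
  · exact ((UPB_lam_contDiffAt (hs hp)).continuousAt.pow 2).mul h0.continuousAt
  · have h1 : (fun p : Sp => lam κ (nq (pr p)) ^ 2 * fderiv ℝ f p v) =ᶠ[𝓝 p] fun _ => (0 : ℝ) := by
      have h2 : (tsupport f)ᶜ ∈ 𝓝 p := (isClosed_tsupport f).isOpen_compl.mem_nhds hp
      filter_upwards [h2] with q hq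
      rw [UPB_fderiv_zero f q hq v, mul_zero]
    exact continuousAt_const.congr h1.symm

lemma UPB_dv_cont {κ τ : ℝ} {Y : VF} (hY : C1c κ Y) : Continuous (dv κ τ Y) := by
  have h1 : Continuous (fun p : Sp => fderiv ℝ (fun q : Sp => lam κ (nq (pr q)) * Y.a q) p (1, 0, 0)) :=
    ((UPB_mul_contDiff Y.a hY.ca hY.ia).continuous_fderiv one_ne_zero).clm_apply continuous_const
  have h2 : Continuous (fun p : Sp => fderiv ℝ (fun q : Sp => lam κ (nq (pr q)) * Y.b q) p (0, 1, 0)) :=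
    ((UPB_mul_contDiff Y.b hY.cb hY.ib).continuous_fderiv one_ne_zero).clm_apply continuous_const
  have h3 := UPB_term_cont Y.a hY.ca hY.ia (0, 0, 1)
  have h4 := UPB_term_cont Y.b hY.cb hY.ib (0, 0, 1)
  have h5 := UPB_term_cont Y.c hY.cc hY.ic (0, 0, 1)
  have h6 : Continuous (fun p : Sp => -(τ * p.2.1)) := by fun_prop
  have h7 : Continuous (fun p : Sp => τ * p.1) := by fun_prop
  have h8 := ((h1.add h2).add (((h6.mul h3).add (h7.mul h4)).add h5))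
  have h9 : dv κ τ Y = fun p : Sp =>
      fderiv ℝ (fun q : Sp => lam κ (nq (pr q)) * Y.a q) p (1, 0, 0) +
      fderiv ℝ (fun q : Sp => lam κ (nq (pr q)) * Y.b q) p (0, 1, 0) +
      (-(τ * p.2.1) * (lam κ (nq (pr p)) ^ 2 * fderiv ℝ Y.a p (0, 0, 1)) +
       τ * p.1 * (lam κ (nq (pr p)) ^ 2 * fderiv ℝ Y.b p (0, 0, 1)) +
       lam κ (nq (pr p)) ^ 2 * fderiv ℝ Y.c p (0, 0, 1)) := by
    funext p
    unfold dv
    ring
  rw [h9]
  exact h8

lemma UPB_dv_int {κ τ : ℝ} {Y : VF} (hY : C1c κ Y) : Integrable (dv κ τ Y) := by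
  have hK : IsCompact (tsupport Y.a ∪ tsupport Y.b ∪ tsupport Y.c) :=
    (hY.sa.isCompact.union hY.sb.isCompact).union hY.sc.isCompact
  have h1 : IntegrableOn (dv κ τ Y) (tsupport Y.a ∪ tsupport Y.b ∪ tsupport Y.c) volume :=
    (UPB_dv_cont hY).continuousOn.integrableOn_compact hK
  rw [integrableOn_iff_integrable_of_support_subset] at h1
  · exact h1
  · intro p hp
    by_contra hn
    apply hp
    simp only [mem_union, not_or] at hn
    obtain ⟨⟨ha, hb⟩, hc⟩ := hn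
    unfold dv
    rw [UPB_fderiv_zero' κ Y.a p ha, UPB_fderiv_zero' κ Y.b p hb, UPB_fderiv_zero Y.a p ha,
      UPB_fderiv_zero Y.b p hb, UPB_fderiv_zero Y.c p hc]
    simp

/-! ### The limit -/

lemma UPB_null {κ τ R : ℝ} (hc : ContinuousOn (hgt κ τ R) (Iic (R ^ 2))) :
    volume {p : Sp | |p.2.2| = UPB_U κ τ R (nq (pr p))} = 0 := by
  have hcont : Continuous (fun p : Sp => UPB_U κ τ R (nq (pr p))) := (UPB_U_cont hc).comp UPB_nq_cont
  have hS : MeasurableSet {p : Sp | |p.2.2| = UPB_U κ τ R (nq (pr p))} :=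
    (isClosed_eq (by fun_prop) hcont).measurableSet
  rw [← lintegral_indicator_one hS, UPB_tonelli _ (measurable_one.indicator hS)]
  have h1 : ∀ q : ℝ × ℝ, ∫⁻ t : ℝ, ({p : Sp | |p.2.2| = UPB_U κ τ R (nq (pr p))}).indicator
      (1 : Sp → ENNReal) (q.1, q.2, t) = 0 := by
    intro q
    have h2 : ∀ t : ℝ, ({p : Sp | |p.2.2| = UPB_U κ τ R (nq (pr p))}).indicator
        (1 : Sp → ENNReal) (q.1, q.2, t) =
        ({t : ℝ | |t| = UPB_U κ τ R (nq q)}).indicator (1 : ℝ → ENNReal) t := by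
      intro t
      by_cases ht : |t| = UPB_U κ τ R (nq q)
      · rw [indicator_of_mem (by exact ht), indicator_of_mem (by exact ht)]
        rfl
      · rw [indicator_of_notMem (by exact ht), indicator_of_notMem (by exact ht)]
    have hfin : ({t : ℝ | |t| = UPB_U κ τ R (nq q)}).Finite := by
      apply Set.Finite.subset (Set.toFinite ({UPB_U κ τ R (nq q), -UPB_U κ τ R (nq q)} : Set ℝ))
      intro t ht
      have ht' : |t| = UPB_U κ τ R (nq q) := ht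
      rcases abs_eq_abs.1 (show |t| = |UPB_U κ τ R (nq q)| by
        rw [← ht', abs_abs]) with h | h
      · simp [h]
      · simp [h]
    rw [lintegral_congr h2, lintegral_indicator_one hfin.measurableSet, hfin.measure_zero]
  rw [lintegral_congr h1]
  simp

lemma UPB_phi_bound {κ τ R n : ℝ} (p : Sp) : |UPB_phi κ τ R n p| ≤ 1 := by
  unfold UPB_phi
  have h3 := UPB_h_nonneg n (UPB_U κ τ R (nq (pr p)) - p.2.2)
  have h4 := UPB_h_nonneg n (UPB_U κ τ R (nq (pr p)) + p.2.2)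
  have h5 := UPB_h_le_one n (UPB_U κ τ R (nq (pr p)) - p.2.2)
  have h6 := UPB_h_le_one n (UPB_U κ τ R (nq (pr p)) + p.2.2)
  rw [abs_of_nonneg (mul_nonneg h3 h4)]
  exact mul_le_one₀ h5 h4 h6

lemma UPB_phi_lim {κ τ R : ℝ} (p : Sp) (f : Sp → ℝ) :
    Tendsto (fun k : ℕ => UPB_phi κ τ R ((k : ℝ) + 1) p * f p) atTop
      (𝓝 (({p : Sp | |p.2.2| < UPB_U κ τ R (nq (pr p))}).indicator f p)) := by
  by_cases hp : |p.2.2| < UPB_U κ τ R (nq (pr p))
  · rw [indicator_of_mem (by exact hp)]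
    have h1 : 0 < UPB_U κ τ R (nq (pr p)) - |p.2.2| := by linarith
    have h2 : Tendsto (fun k : ℕ => 2 / ((k : ℝ) + 1)) atTop (𝓝 0) := by
      have := (tendsto_one_div_add_atTop_nhds_zero_nat (𝕜 := ℝ)).const_mul 2
      rw [mul_zero] at this
      apply this.congr
      intro k
      ring
    apply tendsto_const_nhds.congr'
    filter_upwards [h2.eventually (Iio_mem_nhds h1)] with k hk
    have hk' : 2 / ((k : ℝ) + 1) < UPB_U κ τ R (nq (pr p)) - |p.2.2| := hk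
    have hkp : (0 : ℝ) < (k : ℝ) + 1 := by positivity
    have h3 := le_abs_self p.2.2
    have h4 := neg_abs_le p.2.2
    unfold UPB_phi
    rw [UPB_h_one _ _ hkp (by linarith), UPB_h_one _ _ hkp (by linarith)]
    ring
  · rw [indicator_of_notMem (by exact hp)]
    apply tendsto_const_nhds.congr
    intro k
    have hkp : (0 : ℝ) < (k : ℝ) + 1 := by positivity
    rw [UPB_phi_zero hkp p, zero_mul]
    have h5 : (0 : ℝ) < 1 / ((k : ℝ) + 1) := by positivity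
    have := not_lt.1 hp
    linarith

lemma UPB_ofReal_int (f : Sp → ℝ) : ENNReal.ofReal (∫ p, f p) ≤ ∫⁻ p, ENNReal.ofReal (f p) := by
  by_cases hf : Integrable f
  · rw [integral_eq_lintegral_pos_part_sub_lintegral_neg_part hf]
    apply ENNReal.ofReal_le_of_le_toReal
    have := ENNReal.toReal_nonneg (a := ∫⁻ p, ENNReal.ofReal (-f p))
    linarith
  · rw [integral_undef hf]
    simp

theorem UPB (hPOL : POL_stmt) (hHGT : HGT_stmt) (hIBP : IBP_stmt) : UPB_stmt := by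
  intro κ τ R hκ hR0 hR
  obtain ⟨hI, h0, hc, hpos, hd, hdc⟩ := hHGT κ τ R hκ hR0 hR
  have hR2 : (0 : ℝ) ≤ R ^ 2 := by positivity
  have hI0 := hI 0 hR2
  unfold per
  apply iSup_le
  intro Y
  apply iSup_le
  intro hY
  have hcont : Continuous (fun p : Sp => UPB_U κ τ R (nq (pr p))) := (UPB_U_cont hc).comp UPB_nq_cont
  have hS : MeasurableSet {p : Sp | |p.2.2| < UPB_U κ τ R (nq (pr p))} :=
    (isOpen_lt (by fun_prop) hcont).measurableSet
  have hTT : TT κ τ (ball κ τ R) Y =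
      ∫ p, ({p : Sp | |p.2.2| < UPB_U κ τ R (nq (pr p))}).indicator (dv κ τ Y) p := by
    rw [integral_indicator hS]
    unfold TT
    apply setIntegral_congr_set
    have h1 : ∀ᵐ p : Sp, p ∉ {p : Sp | |p.2.2| = UPB_U κ τ R (nq (pr p))} :=
      measure_eq_zero_iff_ae_notMem.1 (UPB_null hc)
    filter_upwards [h1] with p hp
    have hp' : |p.2.2| ≠ UPB_U κ τ R (nq (pr p)) := hp
    apply propext
    constructor
    · intro hb
      have hb' : nq (pr p) ≤ R ^ 2 ∧ |p.2.2| ≤ hgt κ τ R (nq (pr p)) := hb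
      show |p.2.2| < UPB_U κ τ R (nq (pr p))
      rw [UPB_U_of_lt hb'.1] at hp' ⊢
      exact lt_of_le_of_ne hb'.2 hp'
    · intro hb
      have hb' : |p.2.2| < UPB_U κ τ R (nq (pr p)) := hb
      show nq (pr p) ≤ R ^ 2 ∧ |p.2.2| ≤ hgt κ τ R (nq (pr p))
      have h2 : nq (pr p) ≤ R ^ 2 := by
        by_contra h3
        rw [UPB_U_of_ge h0 (le_of_lt (not_le.1 h3))] at hb'
        have := abs_nonneg p.2.2
        linarith
      rw [UPB_U_of_lt h2] at hb'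
      exact ⟨h2, hb'.le⟩
  have hlim : Tendsto (fun k : ℕ => ∫ p, UPB_phi κ τ R ((k : ℝ) + 1) p * dv κ τ Y p) atTop
      (𝓝 (TT κ τ (ball κ τ R) Y)) := by
    rw [hTT]
    apply tendsto_integral_of_dominated_convergence (fun p => |dv κ τ Y p|)
    · intro k
      have hkp : (0 : ℝ) < (k : ℝ) + 1 := by positivity
      exact ((UPB_phi_contDiff hkp hc h0 hd hdc).continuous.mul
        (UPB_dv_cont hY.toC1c)).aestronglyMeasurable
    · exact (UPB_dv_int hY.toC1c).abs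
    · intro k
      apply Eventually.of_forall
      intro p
      rw [norm_mul, Real.norm_eq_abs, Real.norm_eq_abs]
      exact mul_le_of_le_one_left (abs_nonneg _) (UPB_phi_bound p)
    · apply Eventually.of_forall
      intro p
      exact UPB_phi_lim p (dv κ τ Y)
  have hlim2 := (ENNReal.continuous_ofReal.tendsto _).comp hlim
  apply le_of_tendsto' hlim2
  intro k
  have hkp : (0 : ℝ) < (k : ℝ) + 1 := by positivity
  show ENNReal.ofReal (∫ p, UPB_phi κ τ R ((k : ℝ) + 1) p * dv κ τ Y p) ≤ ENNReal.ofReal (PP κ τ R)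
  rw [hIBP κ τ Y (UPB_phi κ τ R ((k : ℝ) + 1)) hY.toC1c (UPB_phi_contDiff hkp hc h0 hd hdc),
    ← integral_neg]
  refine (UPB_ofReal_int _).trans ?_
  refine (lintegral_mono (fun p => UPB_point hκ hR0 hR hkp hc h0 hd Y hY p)).trans ?_
  exact UPB_total hPOL hκ hR0 hR hkp hc hI0

end Pool.Agent.helper75.IQ
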